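import Pool.Agent.H70.TC1

namespace Pool.Agent.Results.MP_91bf1e_al.Depends

open Pool.Agent.H70.TC

theorem result : ∃ (G : Type) (_ : Group G) (φ : G →* G) (X Y : Finset G),
    Subgroup.closure (X : Set G) = ⊤ ∧ Subgroup.closure (Y : Set G) = ⊤ ∧ tcr X φ ≠ tcr Y φ :=
  ⟨F × T, inferInstance, ψ, X₁, X₂, gen₁ (by rintro (_ | _) <;> simp [X₁]) (by simp [X₁]),
    gen₁ (by rintro (_ | _) <;> simp [X₂, X₀]) (by simp [X₂]), differ.ne'⟩

end Pool.Agent.Results.MP_91bf1e_al.Depends
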